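import Pool.Agent.W52.PU.Cmn
import Pool.Agent.W605.PR.Mono

set_option autoImplicit false

/-! PU-BLK1: scaled test functions. -/

namespace Pool.Agent.W52.PU

open Complex Filter Topology Set MeasureTheory
open W207.PU
open W207.PR (Tst ct dt MM X P)
open H370 (Zf mult)

theorem ctc_sc {ψ : ℝ → ℝ} {R : ℝ} (hR : 0 < R) (z : ℂ) : ctc (sc R ψ) z = ctc ψ (z / R) := by
  have hRc : (R : ℂ) ≠ 0 := by exact_mod_cast hR.ne'
  unfold ctc sc
  have h1 := Measure.integral_comp_mul_left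
    (fun β : ℝ => (ψ β : ℂ) * Complex.cos (2 * Real.pi * β * (z / R))) R
  rw [abs_of_pos (inv_pos.mpr hR)] at h1
  have h2 : (∫ α : ℝ, ((R * ψ (R * α) : ℝ) : ℂ) * Complex.cos (2 * Real.pi * α * z)) =
      (R : ℂ) * ∫ α : ℝ, (ψ (R * α) : ℂ) * Complex.cos (2 * Real.pi * ((R * α : ℝ) : ℂ) * (z / R)) := by
    rw [← integral_const_mul]
    congr 1
    ext α
    have e1 : 2 * Real.pi * ((R * α : ℝ) : ℂ) * (z / R) = 2 * Real.pi * α * z := by
      push_cast
      field_simp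
    rw [e1]
    push_cast
    ring
  rw [h2, h1, Complex.real_smul, ← mul_assoc]
  push_cast
  rw [mul_inv_cancel₀ hRc, one_mul]

theorem ct_sc {ψ : ℝ → ℝ} {R : ℝ} (hR : 0 < R) (x : ℝ) : ct (sc R ψ) x = ct ψ (x / R) := by
  unfold ct sc
  have h1 := Measure.integral_comp_mul_left
    (fun β : ℝ => ψ β * Real.cos (2 * Real.pi * β * (x / R))) R
  rw [abs_of_pos (inv_pos.mpr hR)] at h1
  have h2 : (∫ α : ℝ, R * ψ (R * α) * Real.cos (2 * Real.pi * α * x)) =
      R * ∫ α : ℝ, ψ (R * α) * Real.cos (2 * Real.pi * (R * α) * (x / R)) := by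
    rw [← integral_const_mul]
    congr 1
    ext α
    have e1 : 2 * Real.pi * (R * α) * (x / R) = 2 * Real.pi * α * x := by
      field_simp
    rw [e1]
    ring
  rw [h2, h1, smul_eq_mul, ← mul_assoc, mul_inv_cancel₀ hR.ne', one_mul]

theorem hC_sc {ψ : ℝ → ℝ} {R : ℝ} (hR : 0 < R) (lam d b : ℝ) :
    hC (sc R ψ) lam d b = hC ψ (lam / R) d b := by
  unfold hC
  rw [ctc_sc hR]
  congr 4
  push_cast
  ring

theorem hR_sc {ψ : ℝ → ℝ} {R : ℝ} (h : 0 < R) (lam d : ℝ) :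
    hR (sc R ψ) lam d = hR ψ (lam / R) d := by
  unfold hR
  rw [ct_sc h, mul_div_assoc]

theorem sq_le_exp {κ u : ℝ} (hκ : 0 < κ) (hu : 0 ≤ u) :
    u ^ 2 ≤ 8 / κ ^ 2 * Real.exp (κ / 2 * u) := by
  have h1 := Real.quadratic_le_exp_of_nonneg (x := κ / 2 * u) (by positivity)
  have h2 : u ^ 2 = 8 / κ ^ 2 * ((κ / 2 * u) ^ 2 / 2) := by
    field_simp
    ring
  rw [h2]
  apply mul_le_mul_of_nonneg_left _ (by positivity)
  have : 0 ≤ κ / 2 * u := by positivity
  linarith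

theorem blk1 : S_BLK1 := by
  intro hMB hSCH hAN hBLKC ψ hψ
  classical
  obtain ⟨κ, CM, VM, hκ, hCM, hVM, hmb⟩ := mb_blk hMB
  obtain ⟨CS, hCS, hS⟩ := hSCH
  obtain ⟨μ, hμ0, hμ1, hsupp⟩ := hψ.supp
  obtain ⟨CA, hCA, hA⟩ := hAN ψ μ hψ hμ0 hμ1 hsupp
  have hpi := Real.pi_gt_three
  have hpi0 := Real.pi_pos
  set c : ℝ := 2 * Real.pi with hc
  have hc1 : 1 ≤ c := by linarith
  set C1 : ℝ := CA * (8 / κ ^ 2) / c ^ 2 * (CS * c * (2 + CM)) * c with hC1
  have hC10 : 0 < C1 := by positivity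
  refine ⟨C1 + 1, max 1 (2 / κ), by positivity, le_max_left _ _, fun R hRR => ?_⟩
  have hR1 : 1 ≤ R := (le_max_left _ _).trans hRR
  have hRκ : 2 / κ ≤ R := (le_max_right _ _).trans hRR
  have hR0 : 0 < R := by linarith
  have hψR : Tst (sc R ψ) := Pool.Agent.W605.PR.tst_scale hψ hR1
  have hlim := hBLKC (sc R ψ) hψR
  have h1R : 0 < 1 / R := by positivity
  filter_upwards [((tendsto_order.1 hlim).1 (MM (sc R ψ) - 1 / R) (by linarith)),
    ((tendsto_order.1 hlim).2 (MM (sc R ψ) + 1 / R) (by linarith)),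
    eventually_ge_atTop (max (max 10 (Real.exp (c * R))) VM)] with V hV1 hV2 hV
  have hV10 : 10 ≤ V := ((le_max_left _ _).trans (le_max_left _ _)).trans hV
  have hVe : Real.exp (c * R) ≤ V := ((le_max_right _ _).trans (le_max_left _ _)).trans hV
  have hVVM : VM ≤ V := (le_max_right _ _).trans hV
  have hVpos : 0 < V := by linarith
  set L : ℝ := Real.log V with hLd
  have hL : c * R ≤ L := by rw [hLd, Real.le_log_iff_exp_le hVpos]; exact hVe
  have hcR : 1 ≤ c * R := by nlinarith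
  have hL0 : 0 < L := by linarith
  have hlam : 1 ≤ L / c / R := by
    rw [div_div, le_div_iff₀ (by positivity)]
    linarith
  have hVL : 0 < V * L := by positivity
  have hVL2 : 2 ≤ V * L := by nlinarith
  have hX : X V = V * L / c := by
    unfold X
    rw [hc, ← hLd]
    ring
  have hXpos : 0 < X V := by rw [hX]; positivity
  set Z := Zf riemannZeta (V + 1) (2 * V - 1) with hZ
  set x : ℂ → ℝ := fun s => s.im * L with hx
  have hcRne : c * R ≠ 0 := by positivity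
  have hSb := hS Z x (wt κ V) (wt_nonneg κ V) (c * R) hcR
  have hcells := card_cells Z L V hL0.le hVpos.le (by
    intro s hs
    obtain ⟨a1, a2, a3, a4, a5⟩ := Zf_mem (by linarith) hs
    exact ⟨by linarith, by linarith⟩)
  have hsq := sq_le_fourth (Z.image (fun s => ⌊x s⌋))
    (fun k => ∑ s ∈ Z with ⌊x s⌋ = k, wt κ V s)
  have hmbV : ∑ k ∈ Z.image (fun s => ⌊x s⌋), (∑ s ∈ Z with ⌊x s⌋ = k, wt κ V s) ^ 4 ≤
      CM * (V * L) := hmb V hVVM
  have hsum : ∑ s ∈ Z, ∑ s' ∈ Z, wt κ V s * wt κ V s' *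
      ((1 + |x s - x s'| / (c * R))⁻¹) ^ 2 ≤ CS * (c * R) * ((2 + CM) * (V * L)) := by
    refine hSb.trans ?_
    apply mul_le_mul_of_nonneg_left _ (by positivity)
    have hcells' : ((Z.image (fun s => ⌊x s⌋)).card : ℝ) ≤ V * L + 2 := hcells
    linarith
  set K : ℝ := CA * (8 / κ ^ 2) / c ^ 2 / R ^ 2 with hK
  have hK0 : 0 < K := by positivity
  -- pair by pair
  have hpair : ∀ s ∈ Z, ∀ s' ∈ Z, (mult riemannZeta s : ℝ) * (mult riemannZeta s' : ℝ) *
        |hR (sc R ψ) (L / c) (s.im - s'.im) -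
          hC (sc R ψ) (L / c) (s.im - s'.im) (s.re - s'.re)| ≤
      K * (wt κ V s * wt κ V s' * ((1 + |x s - x s'| / (c * R))⁻¹) ^ 2) := by
    intro s hs s' hs'
    obtain ⟨a1, a2, a3, a4, a5⟩ := Zf_mem (by linarith) hs
    obtain ⟨b1, b2, b3, b4, b5⟩ := Zf_mem (by linarith) hs'
    have hb : |s.re - s'.re| ≤ 1 := by rw [abs_le]; constructor <;> linarith
    obtain ⟨h1, -, -⟩ := hA (L / c / R) (s.im - s'.im) (s.re - s'.re) hlam hb
    rw [hR_sc hR0, hC_sc hR0, abs_sub_comm]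
    set b : ℝ := |s.re - s'.re| with hbd
    have hb0 : 0 ≤ b := abs_nonneg _
    have e1 : L / c / R * |s.im - s'.im| = |x s - x s'| / (c * R) := by
      simp only [hx]
      rw [← sub_mul, abs_mul, abs_of_pos hL0]
      field_simp
    rw [e1] at h1
    set q : ℝ := ((1 + |x s - x s'| / (c * R))⁻¹) ^ 2 with hq
    have hq0 : 0 ≤ q := by positivity
    have e2 : ((s.re - s'.re) * (L / c / R)) ^ 2 = (b * L) ^ 2 / c ^ 2 / R ^ 2 := by
      rw [mul_pow, ← sq_abs (s.re - s'.re), ← hbd]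
      field_simp
    have e3 : (b * L) ^ 2 ≤ 8 / κ ^ 2 * Real.exp (κ / 2 * (b * L)) :=
      sq_le_exp hκ (by positivity)
    have e4 : Real.exp (2 * Real.pi * μ * (L / c / R) * b) ≤ Real.exp (κ / 2 * (b * L)) := by
      apply Real.exp_le_exp.2
      have e5 : 2 * Real.pi * μ * (L / c / R) * b = μ / R * (b * L) := by
        rw [← hc]
        field_simp
      rw [e5]
      apply mul_le_mul_of_nonneg_right _ (by positivity)
      rw [div_le_iff₀ hR0]
      rw [div_le_iff₀ hκ] at hRκ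
      nlinarith
    have e6 : Real.exp (κ / 2 * (b * L)) * Real.exp (κ / 2 * (b * L)) =
        Real.exp (κ * b * L) := by
      rw [← Real.exp_add]; congr 1; ring
    have h2 : |hC ψ (L / c / R) (s.im - s'.im) (s.re - s'.re) - hR ψ (L / c / R) (s.im - s'.im)| ≤
        K * Real.exp (κ * b * L) * q := by
      refine h1.trans ?_
      rw [e2]
      calc CA * ((b * L) ^ 2 / c ^ 2 / R ^ 2) * Real.exp (2 * Real.pi * μ * (L / c / R) * b) * q ≤
          CA * ((8 / κ ^ 2 * Real.exp (κ / 2 * (b * L))) / c ^ 2 / R ^ 2) *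
            Real.exp (κ / 2 * (b * L)) * q := by gcongr
        _ = CA * (8 / κ ^ 2) / c ^ 2 / R ^ 2 *
            (Real.exp (κ / 2 * (b * L)) * Real.exp (κ / 2 * (b * L))) * q := by ring
        _ = _ := by rw [e6, hK]
    have h5 := wt_mul hκ.le (by linarith : (1 : ℝ) ≤ V) s s'
    rw [← hbd, ← hLd] at h5
    calc (mult riemannZeta s : ℝ) * (mult riemannZeta s' : ℝ) *
          |hC ψ (L / c / R) (s.im - s'.im) (s.re - s'.re) - hR ψ (L / c / R) (s.im - s'.im)| ≤
        (mult riemannZeta s : ℝ) * (mult riemannZeta s' : ℝ) *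
          (K * Real.exp (κ * b * L) * q) := by gcongr
      _ = K * ((mult riemannZeta s : ℝ) * (mult riemannZeta s' : ℝ) *
          Real.exp (κ * b * L)) * q := by ring
      _ ≤ K * (wt κ V s * wt κ V s') * q := by gcongr
      _ = _ := by ring
  have hdiff : |W201FW.SS (ct (sc R ψ)) (V + 1) (2 * V - 1) L -
      SC (sc R ψ) (L / c) (V + 1) (2 * V - 1)| ≤ C1 / R * X V := by
    rw [SS_eq]
    refine (SS_sub_SC (sc R ψ) (sc R ψ) (V + 1) (2 * V - 1) (L / c) (L / c)).trans ?_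
    refine (Finset.sum_le_sum fun s hs => Finset.sum_le_sum fun s' hs' =>
      hpair s hs s' hs').trans ?_
    simp_rw [← Finset.mul_sum]
    calc K * ∑ s ∈ Z, ∑ s' ∈ Z, wt κ V s * wt κ V s' *
        ((1 + |x s - x s'| / (c * R))⁻¹) ^ 2 ≤ K * (CS * (c * R) * ((2 + CM) * (V * L))) := by
          gcongr
      _ = C1 / R * X V := by
        rw [hX, hC1, hK]
        field_simp
  have h2 : |SC (sc R ψ) (L / c) (V + 1) (2 * V - 1) / X V - MM (sc R ψ)| ≤ 1 / R := by
    rw [abs_le]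
    constructor
    · linarith
    · linarith
  have h3 : |W201FW.SS (ct (sc R ψ)) (V + 1) (2 * V - 1) L / X V -
      SC (sc R ψ) (L / c) (V + 1) (2 * V - 1) / X V| ≤ C1 / R := by
    rw [← sub_div, abs_div, abs_of_pos hXpos, div_le_iff₀ hXpos]
    exact hdiff
  have h4 := abs_sub_le (W201FW.SS (ct (sc R ψ)) (V + 1) (2 * V - 1) L / X V)
    (SC (sc R ψ) (L / c) (V + 1) (2 * V - 1) / X V) (MM (sc R ψ))
  have h5 : (C1 + 1) / R = C1 / R + 1 / R := by ring
  rw [h5]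
  linarith

end Pool.Agent.W52.PU
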