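import Pool.Agent.W52.PU.Cmn

set_option autoImplicit false

/-! PU-BLK2: few zeros off the line. -/

namespace Pool.Agent.W52.PU

open Complex Filter Topology Set MeasureTheory
open W207.PU
open W207.PR (Tst ct dt MM X P)
open H370 (Zf mult)

/-- comparison of the decay factors -/
theorem dec_le {c u : ℝ} (hc : 1 ≤ c) (hu : 0 ≤ u) :
    ((1 + u / c)⁻¹) ^ 2 ≤ c ^ 2 * ((1 + u)⁻¹) ^ 2 := by
  have hc0 : 0 < c := by linarith
  have h1 : (1 + u / c)⁻¹ ≤ c * (1 + u)⁻¹ := by
    rw [← div_eq_mul_inv, inv_eq_one_div, div_le_div_iff₀ (by positivity) (by positivity)]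
    have : c * (1 + u / c) = c + u := by field_simp
    rw [this]
    linarith
  have h2 : 0 ≤ (1 + u / c)⁻¹ := by positivity
  calc ((1 + u / c)⁻¹) ^ 2 ≤ (c * (1 + u)⁻¹) ^ 2 := pow_le_pow_left₀ h2 h1 2
    _ = _ := by ring

theorem blk2 : S_BLK2 := by
  intro hMB hSCHO hAN hBLKC
  classical
  obtain ⟨κ, CM, VM, hκ, hCM, hVM, hmb⟩ := mb_blk hMB
  obtain ⟨CS, hCS, hS⟩ := hSCHO
  have hpi := Real.pi_gt_three
  have hpi0 := Real.pi_pos
  set μ : ℝ := min (1 / 2) κ with hμd
  have hμ0 : 0 < μ := lt_min (by norm_num) hκ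
  have hμ1 : μ < 1 := (min_le_left _ _).trans_lt (by norm_num)
  have hμκ : μ ≤ κ := min_le_right _ _
  refine ⟨μ, hμ0, hμ1, fun ψ hψ hsupp ε hε => ?_⟩
  obtain ⟨CA, hCA, hA⟩ := hAN ψ μ hψ hμ0 hμ1 hsupp
  obtain ⟨V1, hV1⟩ := eventually_atTop.1
    (((tendsto_order.1 (hBLKC ψ hψ)).1 (MM ψ - ε / 2) (by linarith)).and
      ((tendsto_order.1 (hBLKC ψ hψ)).2 (MM ψ + ε / 2) (by linarith)))
  set c : ℝ := 2 * Real.pi with hc
  have hc1 : 1 ≤ c := by linarith
  set θ : ℝ := ε / 2 / (4 * CA * c ^ 3) with hθ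
  have hθ0 : 0 < θ := by positivity
  set δ : ℝ := θ ^ 4 / (2 * CS * CM ^ 2) with hδ
  have hδ0 : 0 < δ := by positivity
  refine ⟨δ, max (max 10 (Real.exp c)) (max V1 VM), hδ0,
    (le_max_left _ _).trans (le_max_left _ _), fun V hV hoff => ?_⟩
  have hV10 : 10 ≤ V := ((le_max_left _ _).trans (le_max_left _ _)).trans hV
  have hVe : Real.exp c ≤ V := ((le_max_right _ _).trans (le_max_left _ _)).trans hV
  have hVV1 : V1 ≤ V := ((le_max_left _ _).trans (le_max_right _ _)).trans hV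
  have hVVM : VM ≤ V := ((le_max_right _ _).trans (le_max_right _ _)).trans hV
  have hVpos : 0 < V := by linarith
  set L : ℝ := Real.log V with hLd
  have hL : c ≤ L := by rw [hLd, Real.le_log_iff_exp_le hVpos]; exact hVe
  have hL0 : 0 < L := by linarith
  have hlam : 1 ≤ L / c := by rw [le_div_iff₀ (by linarith)]; linarith
  have hVL : 0 < V * L := by positivity
  have hVL2 : 2 ≤ V * L := by nlinarith
  have hX : X V = V * L / c := by
    unfold X
    rw [hc, ← hLd]
    ring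
  have hXpos : 0 < X V := by rw [hX]; positivity
  set Z := Zf riemannZeta (V + 1) (2 * V - 1) with hZ
  set O := Z.filter (fun s => s.re ≠ 1 / 2) with hO
  have hOZ : O ⊆ Z := Finset.filter_subset _ _
  have hoff' : (O.card : ℝ) ≤ δ * (V * L) := by
    have h1 : (O.card : ℝ) ≤ δ * X V := hoff
    refine h1.trans ?_
    rw [hX]
    apply mul_le_mul_of_nonneg_left _ hδ0.le
    exact div_le_self hVL.le hc1
  -- the sum over the pairs
  set x : ℂ → ℝ := fun s => s.im * L with hx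
  set S : ℝ := ∑ s ∈ O, ∑ s' ∈ Z, wt κ V s * wt κ V s' * ((1 + |x s - x s'|)⁻¹) ^ 2 with hSd
  have hS0 : 0 ≤ S := by
    refine Finset.sum_nonneg fun s _ => Finset.sum_nonneg fun s' _ => ?_
    have := wt_nonneg κ V s
    have := wt_nonneg κ V s'
    positivity
  have hS4 : S ^ 4 ≤ (θ * (V * L)) ^ 4 := by
    have h1 := hS Z O x (wt κ V) (wt_nonneg κ V) hOZ
    have h2 := hmb V hVVM
    have h3 := card_cells Z L V hL0.le hVpos.le (by
      intro s hs
      obtain ⟨a1, a2, a3, a4, a5⟩ := Zf_mem (by linarith) hs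
      exact ⟨by linarith, by linarith⟩)
    have h4 : ((Z.image (fun s => ⌊x s⌋)).card : ℝ) ≤ 2 * (V * L) := by
      refine h3.trans ?_
      linarith
    have h5 : 0 ≤ ∑ k ∈ Z.image (fun s => ⌊x s⌋), (∑ s ∈ Z with ⌊x s⌋ = k, wt κ V s) ^ 4 :=
      Finset.sum_nonneg fun k _ => by positivity
    have h6 : ∑ k ∈ Z.image (fun s => ⌊x s⌋), (∑ s ∈ Z with ⌊x s⌋ = k, wt κ V s) ^ 4 ≤
      CM * (V * L) := h2
    refine h1.trans ?_
    calc CS * (O.card : ℝ) * ((Z.image (fun s => ⌊x s⌋)).card : ℝ) *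
        (∑ k ∈ Z.image (fun s => ⌊x s⌋), (∑ s ∈ Z with ⌊x s⌋ = k, wt κ V s) ^ 4) ^ 2 ≤
        CS * (δ * (V * L)) * (2 * (V * L)) * (CM * (V * L)) ^ 2 := by gcongr
      _ = (2 * CS * CM ^ 2 * δ) * (V * L) ^ 4 := by ring
      _ = θ ^ 4 * (V * L) ^ 4 := by
          rw [hδ]
          congr 1
          field_simp
      _ = _ := by ring
  have hSle : S ≤ θ * (V * L) := by
    exact le_of_pow_le_pow_left₀ (by norm_num) (by positivity) hS4
  -- pair by pair
  have hpair : ∑ s ∈ Z, ∑ s' ∈ Z,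
      (mult riemannZeta s : ℝ) * (mult riemannZeta s' : ℝ) *
        |hR ψ (L / c) (s.im - s'.im) - hC ψ (L / c) (s.im - s'.im) (s.re - s'.re)| ≤
      2 * ∑ s ∈ O, ∑ s' ∈ Z, 2 * CA * c ^ 2 *
        (wt κ V s * wt κ V s' * ((1 + |x s - x s'|)⁻¹) ^ 2) := by
    refine pairs_meet Z O hOZ (fun s s' => (mult riemannZeta s : ℝ) * (mult riemannZeta s' : ℝ) *
        |hR ψ (L / c) (s.im - s'.im) - hC ψ (L / c) (s.im - s'.im) (s.re - s'.re)|)
      (fun s s' => 2 * CA * c ^ 2 *
        (wt κ V s * wt κ V s' * ((1 + |x s - x s'|)⁻¹) ^ 2)) ?_ ?_ ?_ ?_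
    · intro s hs s' hs' hn hn'
      have e1 : s.re = 1 / 2 := by
        by_contra h
        exact hn (Finset.mem_filter.2 ⟨hs, h⟩)
      have e2 : s'.re = 1 / 2 := by
        by_contra h
        exact hn' (Finset.mem_filter.2 ⟨hs', h⟩)
      have e3 : s.re - s'.re = 0 := by rw [e1, e2]; ring
      have h1 := (hA (L / c) (s.im - s'.im) 0 hlam (by simp)).1
      simp only [e3]
      rw [zero_mul, zero_pow two_ne_zero, mul_zero, zero_mul, zero_mul] at h1
      rw [abs_sub_comm]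
      have h2 : |hC ψ (L / c) (s.im - s'.im) 0 - hR ψ (L / c) (s.im - s'.im)| = 0 :=
        le_antisymm h1 (abs_nonneg _)
      rw [h2, mul_zero]
    · intro s hs s' hs'
      obtain ⟨a1, a2, a3, a4, a5⟩ := Zf_mem (by linarith) hs
      obtain ⟨b1, b2, b3, b4, b5⟩ := Zf_mem (by linarith) hs'
      have hb : |s.re - s'.re| ≤ 1 := by rw [abs_le]; constructor <;> linarith
      obtain ⟨-, h1, h2⟩ := hA (L / c) (s.im - s'.im) (s.re - s'.re) hlam hb
      set q : ℝ := ((1 + L / c * |s.im - s'.im|)⁻¹) ^ 2 with hq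
      have hq0 : 0 ≤ q := by positivity
      have hexp : Real.exp (2 * Real.pi * μ * (L / c) * |s.re - s'.re|) ≤
          Real.exp (κ * |s.re - s'.re| * L) := by
        apply Real.exp_le_exp.2
        have e1 : 2 * Real.pi * μ * (L / c) * |s.re - s'.re| = μ * (|s.re - s'.re| * L) := by
          rw [← hc]
          field_simp
        rw [e1]
        calc μ * (|s.re - s'.re| * L) ≤ κ * (|s.re - s'.re| * L) := by gcongr
          _ = _ := by ring
      have hone : 1 ≤ Real.exp (κ * |s.re - s'.re| * L) := Real.one_le_exp (by positivity)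
      have h3 : |hR ψ (L / c) (s.im - s'.im) - hC ψ (L / c) (s.im - s'.im) (s.re - s'.re)| ≤
          2 * CA * Real.exp (κ * |s.re - s'.re| * L) * q := by
        refine (abs_sub _ _).trans ?_
        calc |hR ψ (L / c) (s.im - s'.im)| + |hC ψ (L / c) (s.im - s'.im) (s.re - s'.re)| ≤
            CA * q + CA * Real.exp (2 * Real.pi * μ * (L / c) * |s.re - s'.re|) * q :=
              add_le_add h2 h1
          _ ≤ CA * Real.exp (κ * |s.re - s'.re| * L) * q +
              CA * Real.exp (κ * |s.re - s'.re| * L) * q := by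
              apply add_le_add
              · have : CA * 1 ≤ CA * Real.exp (κ * |s.re - s'.re| * L) := by gcongr
                calc CA * q = CA * 1 * q := by ring
                  _ ≤ _ := by gcongr
              · gcongr
          _ = _ := by ring
      have h4 : q ≤ c ^ 2 * ((1 + |x s - x s'|)⁻¹) ^ 2 := by
        have e1 : L / c * |s.im - s'.im| = |x s - x s'| / c := by
          simp only [hx]
          rw [← sub_mul, abs_mul, abs_of_pos hL0]
          ring
        rw [hq, e1]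
        exact dec_le hc1 (abs_nonneg _)
      have h5 := wt_mul hκ.le (by linarith : (1 : ℝ) ≤ V) s s'
      have hm : (0 : ℝ) ≤ (mult riemannZeta s : ℝ) * (mult riemannZeta s' : ℝ) := by positivity
      calc (mult riemannZeta s : ℝ) * (mult riemannZeta s' : ℝ) *
            |hR ψ (L / c) (s.im - s'.im) - hC ψ (L / c) (s.im - s'.im) (s.re - s'.re)| ≤
          (mult riemannZeta s : ℝ) * (mult riemannZeta s' : ℝ) *
            (2 * CA * Real.exp (κ * |s.re - s'.re| * L) * q) := by gcongr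
        _ = 2 * CA * ((mult riemannZeta s : ℝ) * (mult riemannZeta s' : ℝ) *
            Real.exp (κ * |s.re - s'.re| * L)) * q := by ring
        _ ≤ 2 * CA * (wt κ V s * wt κ V s') * (c ^ 2 * ((1 + |x s - x s'|)⁻¹) ^ 2) := by
            have := wt_nonneg κ V s
            have := wt_nonneg κ V s'
            gcongr
        _ = _ := by ring
    · intro s s'
      have := wt_nonneg κ V s
      have := wt_nonneg κ V s'
      positivity
    · intro s s'
      rw [abs_sub_comm (x s) (x s'), mul_comm (wt κ V s) (wt κ V s')]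
  have hpair2 : 2 * ∑ s ∈ O, ∑ s' ∈ Z, 2 * CA * c ^ 2 *
        (wt κ V s * wt κ V s' * ((1 + |x s - x s'|)⁻¹) ^ 2) = 4 * CA * c ^ 2 * S := by
    rw [hSd]
    simp_rw [← Finset.mul_sum]
    ring
  rw [hpair2] at hpair
  have hdiff : |W201FW.SS (ct ψ) (V + 1) (2 * V - 1) L - SC ψ (L / c) (V + 1) (2 * V - 1)| ≤
      ε / 2 * X V := by
    rw [SS_eq]
    refine (SS_sub_SC ψ ψ (V + 1) (2 * V - 1) (L / c) (L / c)).trans (hpair.trans ?_)
    calc 4 * CA * c ^ 2 * S ≤ 4 * CA * c ^ 2 * (θ * (V * L)) := by gcongr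
      _ = ε / 2 * X V := by
        rw [hX, hθ]
        field_simp
  have h1 := hV1 V hVV1
  have h2 : |SC ψ (L / c) (V + 1) (2 * V - 1) / X V - MM ψ| ≤ ε / 2 := by
    rw [abs_le]
    constructor
    · linarith [h1.1]
    · linarith [h1.2]
  have h3 : |W201FW.SS (ct ψ) (V + 1) (2 * V - 1) L / X V -
      SC ψ (L / c) (V + 1) (2 * V - 1) / X V| ≤ ε / 2 := by
    rw [← sub_div, abs_div, abs_of_pos hXpos, div_le_iff₀ hXpos]
    exact hdiff
  have h4 := abs_sub_le (W201FW.SS (ct ψ) (V + 1) (2 * V - 1) L / X V)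
    (SC ψ (L / c) (V + 1) (2 * V - 1) / X V) (MM ψ)
  linarith

end Pool.Agent.W52.PU
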