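import Mathlib

set_option autoImplicit false

/-! PU: elementary lemmas on cells. -/

namespace Pool.Agent.W52.PU

open Finset

/-- a double sum as a sum over pairs of cells -/
theorem cell_sum (Z : Finset ℂ) (c : ℂ → ℤ) (w : ℂ → ℝ) (g : ℤ → ℤ → ℝ) :
    ∑ s ∈ Z, ∑ s' ∈ Z, g (c s) (c s') * (w s * w s') =
      ∑ k ∈ Z.image c, ∑ k' ∈ Z.image c, g k k' *
        ((∑ s ∈ Z with c s = k, w s) * (∑ s ∈ Z with c s = k', w s)) := by
  have h1 : ∀ f : ℂ → ℝ, ∑ s ∈ Z, f s = ∑ k ∈ Z.image c, ∑ s ∈ Z with c s = k, f s := by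
    intro f
    exact (sum_fiberwise_of_maps_to (fun s hs => mem_image_of_mem c hs) f).symm
  rw [h1]
  refine sum_congr rfl fun k _ => ?_
  have h2 : ∀ s ∈ Z.filter (fun s => c s = k), (∑ s' ∈ Z, g (c s) (c s') * (w s * w s')) =
      ∑ k' ∈ Z.image c, g k k' * (w s * ∑ s' ∈ Z with c s' = k', w s') := by
    intro s hs
    rw [mem_filter] at hs
    rw [h1]
    refine sum_congr rfl fun k' _ => ?_
    rw [mul_sum, mul_sum]
    refine sum_congr rfl fun s' hs' => ?_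
    rw [mem_filter] at hs'
    rw [hs.2, hs'.2]
  rw [sum_congr rfl h2, sum_comm]
  refine sum_congr rfl fun k' _ => ?_
  rw [← mul_sum, ← sum_mul]

/-- pairs in neighbouring cells -/
theorem cell_near (Z : Finset ℂ) (c : ℂ → ℤ) (w : ℂ → ℝ) (N : ℕ) :
    ∑ s ∈ Z, ∑ s' ∈ Z, (if |c s - c s'| ≤ (N : ℤ) then (1 : ℝ) else 0) * (w s * w s') ≤
      (2 * N + 1) * ∑ k ∈ Z.image c, (∑ s ∈ Z with c s = k, w s) ^ 2 := by
  rw [cell_sum Z c w (fun k k' => if |k - k'| ≤ (N : ℤ) then (1 : ℝ) else 0)]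
  set M : ℤ → ℝ := fun k => ∑ s ∈ Z with c s = k, w s with hM
  have hcount : ∀ k : ℤ, ∑ k' ∈ Z.image c, (if |k - k'| ≤ (N : ℤ) then (1 : ℝ) else 0) ≤
      2 * N + 1 := by
    intro k
    rw [sum_boole]
    have h1 : (Z.image c).filter (fun k' => |k - k'| ≤ (N : ℤ)) ⊆ Icc (k - N) (k + N) := by
      intro k' hk'
      rw [mem_filter, abs_le] at hk'
      rw [mem_Icc]
      constructor <;> linarith [hk'.2.1, hk'.2.2]
    have h2 := card_le_card h1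
    rw [Int.card_Icc] at h2
    have h3 : (k + N + 1 - (k - N)).toNat = 2 * N + 1 := by
      have : k + N + 1 - (k - N) = ((2 * N + 1 : ℕ) : ℤ) := by push_cast; ring
      rw [this, Int.toNat_natCast]
    rw [h3] at h2
    exact_mod_cast h2
  have e1 : ∑ k ∈ Z.image c, ∑ k' ∈ Z.image c, (if |k - k'| ≤ (N : ℤ) then (1 : ℝ) else 0) *
      (M k * M k') ≤ ∑ k ∈ Z.image c, ∑ k' ∈ Z.image c,
        ((if |k - k'| ≤ (N : ℤ) then (1 : ℝ) else 0) * (M k ^ 2 / 2) +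
         (if |k - k'| ≤ (N : ℤ) then (1 : ℝ) else 0) * (M k' ^ 2 / 2)) := by
    refine sum_le_sum fun k _ => sum_le_sum fun k' _ => ?_
    rw [← mul_add]
    apply mul_le_mul_of_nonneg_left
    · nlinarith [sq_nonneg (M k - M k')]
    · split_ifs <;> norm_num
  refine e1.trans ?_
  have e2 : ∑ k ∈ Z.image c, ∑ k' ∈ Z.image c,
        ((if |k - k'| ≤ (N : ℤ) then (1 : ℝ) else 0) * (M k ^ 2 / 2) +
         (if |k - k'| ≤ (N : ℤ) then (1 : ℝ) else 0) * (M k' ^ 2 / 2)) =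
      (∑ k ∈ Z.image c, (∑ k' ∈ Z.image c, (if |k - k'| ≤ (N : ℤ) then (1 : ℝ) else 0)) *
        (M k ^ 2 / 2)) +
      (∑ k' ∈ Z.image c, (∑ k ∈ Z.image c, (if |k' - k| ≤ (N : ℤ) then (1 : ℝ) else 0)) *
        (M k' ^ 2 / 2)) := by
    simp only [sum_add_distrib]
    congr 1
    · refine sum_congr rfl fun k _ => ?_
      rw [sum_mul]
    · rw [sum_comm]
      refine sum_congr rfl fun k _ => ?_
      rw [sum_mul]
      refine sum_congr rfl fun k' _ => ?_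
      rw [abs_sub_comm]
  rw [e2]
  have e3 : ∀ k, (∑ k' ∈ Z.image c, (if |k - k'| ≤ (N : ℤ) then (1 : ℝ) else 0)) *
        (M k ^ 2 / 2) ≤ (2 * N + 1) * (M k ^ 2 / 2) := fun k =>
    mul_le_mul_of_nonneg_right (hcount k) (by positivity)
  have e4 := sum_le_sum (s := Z.image c) fun k _ => e3 k
  rw [← mul_sum] at e4
  have e5 : ∑ k ∈ Z.image c, M k ^ 2 / 2 = (∑ k ∈ Z.image c, M k ^ 2) / 2 := by
    rw [sum_div]
  rw [e5] at e4
  linarith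

/-- the sum of the squares from the sum of the fourth powers -/
theorem sq_le_fourth (K : Finset ℤ) (M : ℤ → ℝ) :
    ∑ k ∈ K, M k ^ 2 ≤ (K.card : ℝ) + ∑ k ∈ K, M k ^ 4 := by
  have h : ∀ k ∈ K, M k ^ 2 ≤ 1 + M k ^ 4 := fun k _ => by
    nlinarith [sq_nonneg (M k ^ 2 - 1), sq_nonneg (M k)]
  refine (sum_le_sum h).trans ?_
  rw [sum_add_distrib]
  simp

/-- number of cells -/
theorem card_cells (Z : Finset ℂ) (L V : ℝ) (hL : 0 ≤ L) (hV : 0 ≤ V)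
    (h : ∀ s ∈ Z, V ≤ s.im ∧ s.im ≤ 2 * V) :
    ((Z.image (fun s : ℂ => ⌊s.im * L⌋)).card : ℝ) ≤ V * L + 2 := by
  have h1 : Z.image (fun s : ℂ => ⌊s.im * L⌋) ⊆ Icc ⌊V * L⌋ ⌊2 * V * L⌋ := by
    intro k hk
    rw [mem_image] at hk
    obtain ⟨s, hs, rfl⟩ := hk
    rw [mem_Icc]
    obtain ⟨a, b⟩ := h s hs
    exact ⟨Int.floor_le_floor (mul_le_mul_of_nonneg_right a hL),
      Int.floor_le_floor (mul_le_mul_of_nonneg_right b hL)⟩
  have h2 := card_le_card h1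
  rw [Int.card_Icc] at h2
  have hle : ⌊V * L⌋ ≤ ⌊2 * V * L⌋ := Int.floor_le_floor (by nlinarith [mul_nonneg hV hL])
  have h3 : ((⌊2 * V * L⌋ + 1 - ⌊V * L⌋).toNat : ℝ) = (⌊2 * V * L⌋ : ℝ) + 1 - ⌊V * L⌋ := by
    have h4 : ((⌊2 * V * L⌋ + 1 - ⌊V * L⌋).toNat : ℤ) = ⌊2 * V * L⌋ + 1 - ⌊V * L⌋ :=
      Int.toNat_of_nonneg (by linarith)
    have h5 : (((⌊2 * V * L⌋ + 1 - ⌊V * L⌋).toNat : ℤ) : ℝ) =
      ((⌊2 * V * L⌋ + 1 - ⌊V * L⌋ : ℤ) : ℝ) := by rw [h4]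
    push_cast at h5
    exact_mod_cast h5
  have h6 : ((Z.image (fun s : ℂ => ⌊s.im * L⌋)).card : ℝ) ≤
      ((⌊2 * V * L⌋ + 1 - ⌊V * L⌋).toNat : ℝ) := by exact_mod_cast h2
  rw [h3] at h6
  have h7 := Int.floor_le (2 * V * L)
  have h8 := Int.lt_floor_add_one (V * L)
  linarith

/-- pairs at distance at most `7` -/
theorem floor_near {x y : ℝ} (h : |x - y| ≤ 7) : |⌊x⌋ - ⌊y⌋| ≤ ((7 : ℕ) : ℤ) := by
  have h1 := Int.floor_le x
  have h2 := Int.lt_floor_add_one x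
  have h3 := Int.floor_le y
  have h4 := Int.lt_floor_add_one y
  rw [abs_le] at h ⊢
  have h5 : ((⌊x⌋ - ⌊y⌋ : ℤ) : ℝ) < 8 := by push_cast; linarith [h.2]
  have h6 : (-8 : ℝ) < ((⌊x⌋ - ⌊y⌋ : ℤ) : ℝ) := by push_cast; linarith [h.1]
  have h7 : ⌊x⌋ - ⌊y⌋ < 8 := by exact_mod_cast h5
  have h8 : -8 < ⌊x⌋ - ⌊y⌋ := by exact_mod_cast h6
  push_cast
  constructor <;> omega

/-- a symmetric double sum restricted to the pairs that meet `O` -/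
theorem pairs_meet (Z O : Finset ℂ) (hO : O ⊆ Z) (F G : ℂ → ℂ → ℝ)
    (h0 : ∀ s ∈ Z, ∀ s' ∈ Z, s ∉ O → s' ∉ O → F s s' ≤ 0)
    (h1 : ∀ s ∈ Z, ∀ s' ∈ Z, F s s' ≤ G s s') (hG : ∀ s s', 0 ≤ G s s')
    (hsym : ∀ s s', G s s' = G s' s) :
    ∑ s ∈ Z, ∑ s' ∈ Z, F s s' ≤ 2 * ∑ s ∈ O, ∑ s' ∈ Z, G s s' := by
  have e1 : ∀ s ∈ Z, ∀ s' ∈ Z, F s s' ≤ (if s ∈ O then G s s' else 0) +
      (if s' ∈ O then G s s' else 0) := by
    intro s hs s' hs'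
    by_cases a : s ∈ O
    · rw [if_pos a]
      have : 0 ≤ (if s' ∈ O then G s s' else 0) := by split_ifs; exacts [hG _ _, le_rfl]
      linarith [h1 s hs s' hs']
    · by_cases b : s' ∈ O
      · rw [if_pos b, if_neg a, zero_add]
        exact h1 s hs s' hs'
      · rw [if_neg a, if_neg b, zero_add]
        exact h0 s hs s' hs' a b
  have e2 : ∑ s ∈ Z, ∑ s' ∈ Z, F s s' ≤ ∑ s ∈ Z, ∑ s' ∈ Z, ((if s ∈ O then G s s' else 0) +
      (if s' ∈ O then G s s' else 0)) :=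
    sum_le_sum fun s hs => sum_le_sum fun s' hs' => e1 s hs s' hs'
  refine e2.trans ?_
  simp only [sum_add_distrib]
  have e3 : ∑ s ∈ Z, ∑ s' ∈ Z, (if s ∈ O then G s s' else 0) = ∑ s ∈ O, ∑ s' ∈ Z, G s s' := by
    have : ∀ s ∈ Z, ∑ s' ∈ Z, (if s ∈ O then G s s' else 0) =
        if s ∈ O then ∑ s' ∈ Z, G s s' else 0 := by
      intro s _
      split_ifs
      · rfl
      · simp
    rw [sum_congr rfl this, ← sum_filter]
    congr 1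
    ext s
    rw [mem_filter]
    exact ⟨fun h => h.2, fun h => ⟨hO h, h⟩⟩
  have e4 : ∑ s ∈ Z, ∑ s' ∈ Z, (if s' ∈ O then G s s' else 0) = ∑ s ∈ O, ∑ s' ∈ Z, G s s' := by
    rw [sum_comm, ← e3]
    refine sum_congr rfl fun s _ => sum_congr rfl fun s' _ => ?_
    rw [hsym]
  rw [e3, e4]
  linarith

end Pool.Agent.W52.PU
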