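import Pool.Agent.W207.PU.SpecB
import Pool.Agent.W52.PU.Cells

set_option autoImplicit false

/-! PU: common lemmas for the blocks. -/

namespace Pool.Agent.W52.PU

open Complex Filter Topology Set MeasureTheory
open W207.PU
open W207.PR (Tst ct dt MM X P)
open H370 (Zf mult)

theorem Zf_mem {A B : ℝ} (hA : 1 ≤ A) {s : ℂ} (hs : s ∈ Zf riemannZeta A B) :
    0 < s.re ∧ s.re < 1 ∧ A < s.im ∧ s.im ≤ B ∧ riemannZeta s = 0 :=
  (H370.mem_Zf H370.good_zeta hA).1 hs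

/-- the moment bound for a block -/
theorem mb_blk (h : MB) : ∃ κ C V0 : ℝ, 0 < κ ∧ 0 < C ∧ 10 ≤ V0 ∧ ∀ V : ℝ, V0 ≤ V →
    ∑ k ∈ (Zf riemannZeta (V + 1) (2 * V - 1)).image (fun s : ℂ => ⌊s.im * Real.log V⌋),
      (∑ s ∈ Zf riemannZeta (V + 1) (2 * V - 1) with ⌊s.im * Real.log V⌋ = k, wt κ V s) ^ 4 ≤
        C * (V * Real.log V) := by
  obtain ⟨κ, C, V0, h1, h2, h3, h4⟩ := h
  refine ⟨κ, C, V0, h1, h2, h3, fun V hV => ?_⟩
  refine h4 V hV (Zf riemannZeta (V + 1) (2 * V - 1)) fun s hs => ?_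
  obtain ⟨a1, a2, a3, a4, a5⟩ := Zf_mem (by linarith) hs
  exact ⟨a5, a1, a2, by linarith, by linarith⟩

theorem wt_nonneg (κ V : ℝ) (s : ℂ) : 0 ≤ wt κ V s := by
  unfold wt
  positivity

theorem le_wt {κ V : ℝ} (hκ : 0 ≤ κ) (hV : 1 ≤ V) (s : ℂ) :
    (mult riemannZeta s : ℝ) ≤ wt κ V s := by
  unfold wt
  have h1 : 1 ≤ Real.exp (κ * |s.re - 1 / 2| * Real.log V) := by
    apply Real.one_le_exp
    have := Real.log_nonneg hV
    positivity
  have h2 : (0 : ℝ) ≤ (analyticOrderNatAt riemannZeta s : ℝ) := Nat.cast_nonneg _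
  show (analyticOrderNatAt riemannZeta s : ℝ) ≤ _
  nlinarith

theorem wt_mul {κ V : ℝ} (hκ : 0 ≤ κ) (hV : 1 ≤ V) (s s' : ℂ) :
    (mult riemannZeta s : ℝ) * (mult riemannZeta s' : ℝ) *
      Real.exp (κ * |s.re - s'.re| * Real.log V) ≤ wt κ V s * wt κ V s' := by
  have hL := Real.log_nonneg hV
  have h1 : |s.re - s'.re| ≤ |s.re - 1 / 2| + |s'.re - 1 / 2| := by
    have h2 : s.re - s'.re = (s.re - 1 / 2) - (s'.re - 1 / 2) := by ring
    rw [h2]
    exact abs_sub _ _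
  have h3 : Real.exp (κ * |s.re - s'.re| * Real.log V) ≤
      Real.exp (κ * |s.re - 1 / 2| * Real.log V) * Real.exp (κ * |s'.re - 1 / 2| * Real.log V) := by
    rw [← Real.exp_add]
    apply Real.exp_le_exp.2
    have h4 : κ * |s.re - s'.re| ≤ κ * (|s.re - 1 / 2| + |s'.re - 1 / 2|) := by gcongr
    calc κ * |s.re - s'.re| * Real.log V ≤
        κ * (|s.re - 1 / 2| + |s'.re - 1 / 2|) * Real.log V := by gcongr
      _ = _ := by ring
  have h5 : wt κ V s * wt κ V s' = (mult riemannZeta s : ℝ) * (mult riemannZeta s' : ℝ) *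
      (Real.exp (κ * |s.re - 1 / 2| * Real.log V) *
        Real.exp (κ * |s'.re - 1 / 2| * Real.log V)) := by
    unfold wt
    show _ = (analyticOrderNatAt riemannZeta s : ℝ) * (analyticOrderNatAt riemannZeta s' : ℝ) * _
    ring
  rw [h5]
  gcongr

theorem SS_eq (ψ : ℝ → ℝ) (A B L : ℝ) : W201FW.SS (ct ψ) A B L =
    ∑ s ∈ Zf riemannZeta A B, ∑ s' ∈ Zf riemannZeta A B,
      (mult riemannZeta s : ℝ) * (mult riemannZeta s' : ℝ) *
        hR ψ (L / (2 * Real.pi)) (s.im - s'.im) := by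
  unfold W201FW.SS hR
  refine Finset.sum_congr rfl fun s _ => Finset.sum_congr rfl fun s' _ => ?_
  rw [mul_div_assoc]

/-- the two pair sums -/
theorem SS_sub_SC (ψ φ : ℝ → ℝ) (A B L lam : ℝ) :
    |(∑ s ∈ Zf riemannZeta A B, ∑ s' ∈ Zf riemannZeta A B,
      (mult riemannZeta s : ℝ) * (mult riemannZeta s' : ℝ) * hR ψ L (s.im - s'.im)) -
      SC φ lam A B| ≤
    ∑ s ∈ Zf riemannZeta A B, ∑ s' ∈ Zf riemannZeta A B,
      (mult riemannZeta s : ℝ) * (mult riemannZeta s' : ℝ) *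
        |hR ψ L (s.im - s'.im) - hC φ lam (s.im - s'.im) (s.re - s'.re)| := by
  unfold SC
  rw [← Finset.sum_sub_distrib]
  refine (Finset.abs_sum_le_sum_abs _ _).trans (Finset.sum_le_sum fun s _ => ?_)
  rw [← Finset.sum_sub_distrib]
  refine (Finset.abs_sum_le_sum_abs _ _).trans (Finset.sum_le_sum fun s' _ => ?_)
  rw [← mul_sub, abs_mul, abs_of_nonneg (by positivity :
    (0 : ℝ) ≤ (mult riemannZeta s : ℝ) * (mult riemannZeta s' : ℝ))]

end Pool.Agent.W52.PU
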