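import Pool.Agent.W52.PU.Cmn
import Pool.Agent.H332B.Iter
import Pool.Agent.H332B.WC
import Pool.Agent.H332B.Step

set_option autoImplicit false

/-! PU-UB1: pairs of ordinates within one mean spacing. -/

namespace Pool.Agent.W52.PU

open Complex Filter Topology Set MeasureTheory
open W207.PU
open W207.PR (Tst ct dt MM X P)
open H370 (Zf mult)

theorem ub1_blk {κ C V w : ℝ} (hκ : 0 < κ) (hV : Real.exp (2 * Real.pi) ≤ V)
    (hV10 : 10 ≤ V) (hw : w * Real.log V ≤ 7)
    (hmb : ∑ k ∈ (Zf riemannZeta (V + 1) (2 * V - 1)).image (fun s : ℂ => ⌊s.im * Real.log V⌋),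
      (∑ s ∈ Zf riemannZeta (V + 1) (2 * V - 1) with ⌊s.im * Real.log V⌋ = k, wt κ V s) ^ 4 ≤
        C * (V * Real.log V)) :
    H332B.BP (V + 1) (2 * V - 1) w ≤ 15 * (2 + C) * (V * Real.log V) := by
  classical
  have hpi := Real.pi_gt_three
  have hVpos : 0 < V := by linarith
  have hL : 2 * Real.pi ≤ Real.log V := by
    rw [Real.le_log_iff_exp_le hVpos]; exact hV
  have hL0 : 0 ≤ Real.log V := by linarith
  set Z := Zf riemannZeta (V + 1) (2 * V - 1) with hZ
  have h1 : H332B.BP (V + 1) (2 * V - 1) w ≤ ∑ s ∈ Z, ∑ s' ∈ Z,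
      (if |⌊s.im * Real.log V⌋ - ⌊s'.im * Real.log V⌋| ≤ ((7 : ℕ) : ℤ) then (1 : ℝ) else 0) *
        (wt κ V s * wt κ V s') := by
    unfold H332B.BP H332B.Zb
    refine Finset.sum_le_sum fun s _ => Finset.sum_le_sum fun s' _ => ?_
    have hw0 := mul_nonneg (wt_nonneg κ V s) (wt_nonneg κ V s')
    by_cases hc : |s.im - s'.im| ≤ w
    · rw [if_pos hc]
      have h2 : |s.im * Real.log V - s'.im * Real.log V| ≤ 7 := by
        rw [← sub_mul, abs_mul, abs_of_nonneg hL0]
        exact (mul_le_mul_of_nonneg_right hc hL0).trans hw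
      rw [if_pos (floor_near h2), one_mul]
      exact mul_le_mul (le_wt hκ.le (by linarith) s) (le_wt hκ.le (by linarith) s')
        (Nat.cast_nonneg _) (wt_nonneg _ _ _)
    · rw [if_neg hc]
      split_ifs
      · rw [one_mul]; exact hw0
      · rw [zero_mul]
  have h2 := cell_near Z (fun s : ℂ => ⌊s.im * Real.log V⌋) (wt κ V) 7
  have h3 := sq_le_fourth (Z.image (fun s : ℂ => ⌊s.im * Real.log V⌋))
    (fun k => ∑ s ∈ Z with ⌊s.im * Real.log V⌋ = k, wt κ V s)
  have h4 := card_cells Z (Real.log V) V hL0 hVpos.le (by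
    intro s hs
    obtain ⟨a1, a2, a3, a4, a5⟩ := Zf_mem (by linarith) hs
    exact ⟨by linarith, by linarith⟩)
  have h5 : 2 ≤ V * Real.log V := by nlinarith
  refine h1.trans (h2.trans ?_)
  have h6 : ((2 : ℝ) * ((7 : ℕ) : ℝ) + 1) = 15 := by norm_num
  rw [h6]
  linarith

theorem ub1 : S_UB1 := by
  intro hMB
  obtain ⟨κ, C, V0, hκ, hC, hV0, hmb⟩ := mb_blk hMB
  have hpi := Real.pi_gt_three
  have hpi2 : Real.pi ≤ 3.15 := Real.pi_lt_d2.le
  set K : ℝ := 15 * (2 + C) * (2 * Real.pi) with hK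
  have hK0 : 0 < K := by positivity
  obtain ⟨T1, hT1⟩ := H332B.iter H332B.wc H332B.step (fun T => 2 * Real.pi * 1 / Real.log T) K
    (max V0 (Real.exp (2 * Real.pi))) hK0.le (hV0.trans (le_max_left _ _))
    (fun T V hV hVT => by
      have hVV0 : V0 ≤ V := (le_max_left _ _).trans hV
      have hVe : Real.exp (2 * Real.pi) ≤ V := (le_max_right _ _).trans hV
      have hVpos : 0 < V := by linarith
      have hlogV : 2 * Real.pi ≤ Real.log V := by
        rw [Real.le_log_iff_exp_le hVpos]; exact hVe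
      have hlogVT : Real.log V ≤ Real.log T := Real.log_le_log hVpos (by linarith)
      have hlogT : 0 < Real.log T := by linarith
      refine ⟨by positivity, ?_, V + 1, 2 * V - 1, ⟨by linarith, le_rfl, le_rfl, by linarith⟩, ?_⟩
      · rw [div_le_one hlogT]
        linarith
      · have h1 := ub1_blk (w := 2 * Real.pi * 1 / Real.log T) hκ hVe (by linarith) (by
          rw [div_mul_eq_mul_div, div_le_iff₀ hlogT]
          nlinarith) (hmb V hVV0)
        refine h1.trans (le_of_eq ?_)
        unfold H332B.X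
        rw [hK]
        field_simp) 1 one_pos
  refine ⟨K + 1, max 10 T1, by positivity, le_max_left _ _, fun T hT => ?_⟩
  have h1 := hT1 T ((le_max_right _ _).trans hT)
  have hT10 : 10 ≤ T := (le_max_left _ _).trans hT
  have hlogT : 0 < Real.log T := Real.log_pos (by linarith)
  have hX : 0 < X T := by
    unfold X
    have : 0 < T := by linarith
    positivity
  unfold P
  rw [div_le_iff₀ hX]
  refine h1.trans (le_of_eq ?_)
  unfold X H332B.X
  ring

end Pool.Agent.W52.PU
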